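import Mathlib
import Pool.Agent.H6.AbSq

namespace Pool.Agent.Results.MP_72cd34_co.Q1False

open Pool.Agent.H6.AbSq in
/-- For every constant `C` there is a nonempty binary word `w` whose number of distinct Parikh vectors
of abelian-square factors exceeds `C * |w| ^ (3/2)`. -/
theorem result : ∀ C : ℝ, ∃ w : List Bool, w ≠ [] ∧
    C * (w.length : ℝ) ^ ((3 : ℝ) / 2) <
      (Set.ncard {Ψ : Bool → ℕ | ∃ u v : List Bool, u ++ v ≠ [] ∧ u ++ v <:+: w ∧
        (∀ a, u.count a = v.count a) ∧ Ψ = fun a => (u ++ v).count a} : ℝ) := by
  intro C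
  obtain ⟨t, ht, h1⟩ := exists_t C
  obtain ⟨n, f, s, hn, hs, h2⟩ := core t ht
  have hc : ∀ k i, ((List.range' i k).map f).count true = cnt f i (i + k) := by
    intro k i
    induction k with
    | zero => simp [cnt]
    | succ k ih =>
      rw [List.range'_concat, List.map_append, List.count_append, ih, ← add_assoc,
        cnt_succ _ _ _ (by omega)]
      cases h : f (i + k) <;> simp [h]
  have hf : ∀ l : List Bool, l.count false = l.length - l.count true := by
    intro l
    have := List.count_false_add_count_true l
    omega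
  have hle : ∀ k i, cnt f i (i + k) ≤ k := by
    intro k i
    rw [← hc]
    simpa using List.count_le_length (a := true) (l := (List.range' i k).map f)
  refine ⟨(List.range n).map f, ?_, ?_⟩
  · obtain ⟨p, hp⟩ : s.Nonempty := by rw [← Finset.card_pos, hs]; positivity
    obtain ⟨i, a1, a2, -⟩ := h2 p hp
    have : n ≠ 0 := by omega
    simpa using this
  have h4 := h1 n hn
  rw [← hs] at h4
  simp only [List.length_map, List.length_range]
  refine h4.trans_le ?_
  rw [Nat.cast_le, ← Set.ncard_coe_finset]
  refine Set.ncard_le_ncard_of_injOn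
    (fun p : ℕ × ℕ => fun a : Bool => if a then 2 * p.2 else 2 * (p.1 - p.2)) ?_ ?_ ?_
  · intro p hp
    obtain ⟨i, a1, a2, a3, a4⟩ := h2 p hp
    have a5 : cnt f (i + p.1) (i + p.1 + p.1) = p.2 := by rw [← a4]; congr 1; omega
    refine ⟨(List.range' i p.1).map f, (List.range' (i + p.1) p.1).map f, ?_, ?_, ?_, ?_⟩
    · simp; omega
    · refine ⟨(List.range' 0 i).map f, (List.range' (i + 2 * p.1) (n - (i + 2 * p.1))).map f, ?_⟩
      simp only [← List.map_append, List.range_eq_range']
      congr 1
      have e1 := @List.range'_append_1 i p.1 p.1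
      have e2 := @List.range'_append_1 0 i (p.1 + p.1)
      have e3 := @List.range'_append_1 0 (i + (p.1 + p.1)) (n - (i + 2 * p.1))
      rw [zero_add] at e2 e3
      rw [e1, e2, show i + 2 * p.1 = i + (p.1 + p.1) by omega] at *
      rw [e3]
      congr 1
      omega
    · intro a
      cases a
      · rw [hf, hf, hc, hc, a3, a5]; simp
      · rw [hc, hc, a3, a5]
    · funext a
      cases a
      · rw [hf, List.count_append, hc, hc, a3, a5]; simp; omega
      · rw [List.count_append, hc, hc, a3, a5]; simp; omega
  · intro p hp q hq hpq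
    obtain ⟨i, -, -, a3, -⟩ := h2 p hp
    obtain ⟨j, -, -, b3, -⟩ := h2 q hq
    have c1 := congrFun hpq true
    have c2 := congrFun hpq false
    have := hle p.1 i
    have := hle q.1 j
    simp at c1 c2
    ext <;> omega
  · refine (Set.Finite.pi' (fun _ : Bool => Set.finite_Iic n)).subset ?_
    rintro Ψ ⟨u, v, -, a2, -, rfl⟩ a
    have := a2.length_le
    simp only [List.length_map, List.length_range] at this
    exact List.count_le_length.trans this

end Pool.Agent.Results.MP_72cd34_co.Q1False
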